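import Pool.Agent.W902.C6.Stm2

/-! C6X-LOW2. -/

set_option autoImplicit false

open Pool.Agent.H800R3

namespace Pool.Agent.W486.C6

open Pool.Agent.W902.C6

theorem mem_posns {A T : Finset ℝ} {x : ℝ} : x ∈ posns A T ↔ x ∈ A ∨ x⁻¹ ∈ T := by
  classical
  unfold posns
  rw [Finset.mem_union, Finset.mem_image]
  constructor
  · rintro (h | ⟨t, ht, rfl⟩)
    · exact Or.inl h
    · exact Or.inr (by rwa [inv_inv])
  · rintro (h | h)
    · exact Or.inl h
    · exact Or.inr ⟨x⁻¹, h, inv_inv x⟩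

theorem lett_fst {A T : Finset ℝ} {x : ℝ} : (lett A T x).1 = true ↔ x ∈ A := by
  simp [lett]

theorem lett_snd {A T : Finset ℝ} {x : ℝ} : (lett A T x).2 = true ↔ x⁻¹ ∈ T := by
  simp [lett]

theorem canon_of_words (hhead : S_head) {A T : Finset ℝ} (h0 : (0 : ℝ) ∉ A) (h0' : (0 : ℝ) ∉ T)
    {u v : List Lt} {x y : Lt} (hx : x.1 = true) (hy : y.2 = true)
    (hu : word A T (Set.Iio 0) = x :: u)
    (hv : word A T (Set.Ioo 0 1) = y :: v) : Canon A T := by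
  obtain ⟨r, hr, hrp, hrl, hrm⟩ := hhead A T _ _ _ hu
  obtain ⟨q, hq, hqp, hql, hqm⟩ := hhead A T _ _ _ hv
  have hrA : r ∈ A := lett_fst.1 (by rw [hrl, hx])
  have hqT : q⁻¹ ∈ T := lett_snd.1 (by rw [hql, hy])
  have hr0 : r < 0 := hr
  obtain ⟨hq0, hq1⟩ := hq
  have hqi : 1 < q⁻¹ := by
    rw [← inv_one]
    exact (inv_lt_inv₀ one_pos hq0).2 hq1
  refine ⟨h0, h0', ⟨r, hrA, hr0, ?_, ?_⟩, ⟨q⁻¹, hqT, by linarith, ?_, ?_⟩⟩
  · intro s hs
    rcases lt_or_ge s 0 with h | h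
    · exact hrm s (mem_posns.2 (Or.inl hs)) h
    · linarith
  · intro t ht htn
    have h1 : t⁻¹ < 0 := inv_lt_zero.2 htn
    have h2 := hrm t⁻¹ (mem_posns.2 (Or.inr (by rwa [inv_inv]))) h1
    have h3 : t⁻¹ * t = 1 := inv_mul_cancel₀ htn.ne
    nlinarith
  · intro t ht
    rcases le_or_gt t 1 with h | h
    · linarith
    · have ht0 : 0 < t := by linarith
      have h1 : 0 < t⁻¹ := inv_pos.2 ht0
      have h2 : t⁻¹ < 1 := by
        rw [← inv_one]
        exact (inv_lt_inv₀ ht0 one_pos).2 h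
      have h3 := hqm t⁻¹ (mem_posns.2 (Or.inr (by rwa [inv_inv]))) ⟨h1, h2⟩
      have h4 := (inv_le_inv₀ h1 hq0).2 h3
      rwa [inv_inv] at h4
  · intro s hs hs0
    rcases lt_or_ge s 1 with h | h
    · have h3 := hqm s (mem_posns.2 (Or.inl hs)) ⟨hs0, h⟩
      have h4 : q * q⁻¹ = 1 := mul_inv_cancel₀ hq0.ne'
      nlinarith
    · nlinarith

theorem main (hreal : S_real2) (hcard : S_card) (hwei : S_wei) (hlet : S_let) (hhead : S_head)
    (hmem : S_mem) : S_low2 := by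
  classical
  intro o m
  have key : ∀ z : List Lt × List Lt × List Lt, ∃ p : Finset ℝ × Finset ℝ, z ∈ tri XU4 XV XP1 m →
      (0 : ℝ) ∉ p.1 ∧ (0 : ℝ) ∉ p.2 ∧ ((1 : ℝ) ∈ p.1 ↔ o = true) ∧ ((1 : ℝ) ∈ p.2 ↔ o = true) ∧
      word p.1 p.2 (Set.Iio 0) = z.1 ∧ word p.1 p.2 (Set.Ioo 0 1) = z.2.1 ∧
      word p.1 p.2 (Set.Ioi 1) = z.2.2 := by
    intro z
    by_cases hz : z ∈ tri XU4 XV XP1 m
    · obtain ⟨h1, h2, h3, -⟩ := hz
      obtain ⟨A, T, h⟩ := hreal o z.1 z.2.1 z.2.2 h1.1.1 h2.1 h3.1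
      exact ⟨(A, T), fun _ => h⟩
    · exact ⟨(∅, ∅), fun h => absurd h hz⟩
  choose G hG using key
  refine ⟨G, fun z hz => ?_⟩
  obtain ⟨g1, g2, g3, g4, g5, g6, g7⟩ := hG z hz
  obtain ⟨⟨⟨hzN, x, l, hzx, hx1⟩, hc1, hc2⟩, ⟨hvN, y, l', hvy, hy2⟩, ⟨hwN, hw1⟩, hw⟩ := hz
  set A := (G z).1 with hA
  set T := (G z).2 with hT
  have hcan : Canon A T := canon_of_words hhead g1 g2 hx1 hy2 (g5.trans hzx) (g6.trans hvy)
  refine ⟨hcan, g3, g4, ?_, ?_, ?_, ?_, ?_, g5, g6, g7⟩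
  · have := (hlet A T (Set.Iio 0)).1
    rw [g5] at this
    exact hc1.trans this
  · have := (hlet A T (Set.Iio 0)).2
    rw [g5] at this
    exact hc2.trans this
  · have hp : 0 < z.2.2.countP (fun x => x.1) := hw1
    rw [List.countP_pos_iff] at hp
    obtain ⟨x, hx, hx'⟩ := hp
    rw [← g7] at hx
    obtain ⟨r, hr, -, hrl⟩ := hmem A T _ x hx
    exact ⟨r, lett_fst.1 (by rw [hrl]; simpa using hx'), hr⟩
  · obtain ⟨-, -, ⟨s, hs, hs0, -⟩, -⟩ := hcan
    exact ⟨s, hs, by linarith⟩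
  · have e1 := hcard true A T
    obtain ⟨-, -, -, e2⟩ := hwei A T
    have e0 : wt (lett A T 0) = 0 := by
      have a1 : lett A T 0 = (false, false) := by
        simp [lett, g1, g2]
      rw [a1]; rfl
    have e3 : wt (lett A T 1) = 2 * o.toNat := by
      have a1 : lett A T 1 = (o, o) := by
        cases o
        · have h1 : (1 : ℝ) ∉ A := fun h => by simpa using g3.1 h
          have h2 : (1 : ℝ) ∉ T := fun h => by simpa using g4.1 h
          simp [lett, h1, h2]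
        · have h1 : (1 : ℝ) ∈ A := g3.2 rfl
          have h2 : (1 : ℝ) ∈ T := g4.2 rfl
          simp [lett, h1, h2]
      rw [a1]; unfold wt; simp only; omega
    rw [g5, g6, g7, e0, e3] at e2
    have e8 : (true).toNat = 1 := rfl
    cases o
    · have h1 : (1 : ℝ) ∉ A := fun h => by simpa using g3.1 h
      rw [if_neg (fun h => h1 h.1)] at e1
      simp only [Bool.toNat_false] at *
      omega
    · rw [if_pos ⟨g3.2 rfl, g4.2 rfl⟩] at e1
      simp only [Bool.toNat_true] at *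
      omega

end Pool.Agent.W486.C6
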